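import Mathlib

/-!
# Project QG (MP_5fc650_pr): Gaussian limit of the quartic surface. Definitions, part 1.

Sections: densities on the line and their quantile functions; the cell potential of the quartic
surface; densities on `Fin N → ℝ`.
-/

set_option autoImplicit false

namespace QG

open MeasureTheory

/-! ## Densities on the line -/

/-- a probability density on the line with finite second moment and finite Fisher information;
`d` is its derivative -/
structure Dens (g d : ℝ → ℝ) : Prop where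
  pos : ∀ x, 0 < g x
  cont : Continuous d
  deriv : ∀ x, HasDerivAt g (d x) x
  int : ∫ x, g x = 1
  sq : Integrable (fun x => x ^ 2 * g x)
  fisher : Integrable (fun x => d x ^ 2 / g x)

/-- the law with density `g` on the line -/
noncomputable def law1 (g : ℝ → ℝ) : Measure ℝ := volume.withDensity (fun x => ENNReal.ofReal (g x))

/-- the uniform distribution on `(0, 1)` -/
noncomputable def uni : Measure ℝ := volume.restrict (Set.Ioo 0 1)

instance : IsProbabilityMeasure uni := ⟨by simp [uni]⟩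

open Classical in
/-- the quantile function of the density `g` (`0` outside `(0, 1)`) -/
noncomputable def qt (g : ℝ → ℝ) (u : ℝ) : ℝ :=
  if u ∈ Set.Ioo (0 : ℝ) 1 then sInf {x | u ≤ ∫ y in Set.Iic x, g y} else 0

/-! ## Cells -/

/-- `∑_{i,j} (t i - t j) ^ 2` -/
def q (t : Fin 4 → ℝ) : ℝ := ∑ i, ∑ j, (t i - t j) ^ 2

/-- the monotonicity form of the forces `G` -/
def DD (G : Fin 4 → (Fin 4 → ℝ) → ℝ) (t t' : Fin 4 → ℝ) : ℝ :=
  ∑ i, (t' i - t i) * (G i t' - G i t)

/-- A cell weight `w` with forces `G i = - ∂ log w / ∂ t i` and constant `C`. -/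
structure Cell (w : (Fin 4 → ℝ) → ℝ) (G : Fin 4 → (Fin 4 → ℝ) → ℝ) (C : ℝ) : Prop where
  one_le : 1 ≤ C
  pos : ∀ t, 0 < w t
  cont : Continuous w
  contG : ∀ i, Continuous (G i)
  deriv : ∀ i t, HasDerivAt (fun r => w (Function.update t i r)) (-(G i t * w t)) (t i)
  shift : ∀ (t : Fin 4 → ℝ) (r : ℝ), w (fun i => t i + r) = w t
  even : ∀ t : Fin 4 → ℝ, w (fun i => - t i) = w t
  sumG : ∀ t, ∑ i, G i t = 0
  grow : ∀ i t, |G i t| ≤ C * (1 + q t) ^ 2
  decay : ∀ t, w t ≤ C * Real.exp (-(q t) ^ 2 / C)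
  flux : ∀ i t t', (G i t' - G i t) ^ 2 ≤ C * (1 + q t + q t') * DD G t t'
  coer : ∀ t t', q (fun i => t' i - t i) ≤ C * (1 + q t) * DD G t t'
  quar : ∀ t t', q (fun i => t' i - t i) ^ 2 ≤ C * DD G t t'
  conv : ∀ t s : Fin 4 → ℝ, 2 * Real.log (w t) - Real.log (w (fun i => t i + s i)) -
    Real.log (w (fun i => t i - s i)) ≤ C * ((1 + q t) * q s + q s ^ 2)

/-! ### The cell of the quartic surface -/

/-- `∑ (x - t i) ^ 4` -/
def V (t : Fin 4 → ℝ) (x : ℝ) : ℝ := ∑ i, (x - t i) ^ 4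

/-- the derivative of `V t` -/
def V' (t : Fin 4 → ℝ) (x : ℝ) : ℝ := ∑ i, 4 * (x - t i) ^ 3

/-- the weight of a cell, the odd site in its centre integrated out -/
noncomputable def w4 (t : Fin 4 → ℝ) : ℝ := ∫ x, Real.exp (-V t x)

/-- the density of the height in the centre -/
noncomputable def gt (t : Fin 4 → ℝ) (x : ℝ) : ℝ := Real.exp (-V t x) / w4 t

/-- its derivative -/
noncomputable def gd (t : Fin 4 → ℝ) (x : ℝ) : ℝ := -(V' t x * gt t x)

/-- the forces -/
noncomputable def G4 (i : Fin 4) (t : Fin 4 → ℝ) : ℝ := -∫ x, 4 * (x - t i) ^ 3 * gt t x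

/-! ## Densities on `Fin N → ℝ` -/

/-- a positive density with partial derivatives `D k`, with Gaussian domination and finite Fisher
information -/
structure Good {N : ℕ} (f : (Fin N → ℝ) → ℝ) (D : Fin N → (Fin N → ℝ) → ℝ) : Prop where
  pos : ∀ x, 0 < f x
  cont : Continuous f
  contD : ∀ k, Continuous (D k)
  deriv : ∀ k x, HasDerivAt (fun r => f (Function.update x k r)) (D k x) (x k)
  dom : ∃ C c : ℝ, 0 < c ∧ (∀ x, f x ≤ C * Real.exp (-(c * ∑ i, x i ^ 2))) ∧
    ∀ k x, |D k x| ≤ C * Real.exp (-(c * ∑ i, x i ^ 2))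
  fisher : ∀ k, Integrable (fun x => D k x ^ 2 / f x)

/-- the law with density `f` -/
noncomputable def lawN {N : ℕ} (f : (Fin N → ℝ) → ℝ) : Measure (Fin N → ℝ) :=
  volume.withDensity (fun x => ENNReal.ofReal (f x))

/-- the marginal of the first `N` coordinates -/
noncomputable def marg {N : ℕ} (f : (Fin (N + 1) → ℝ) → ℝ) (x : Fin N → ℝ) : ℝ :=
  ∫ r, f (Fin.snoc (α := fun _ => ℝ) x r)

/-- the conditional density of the last coordinate -/
noncomputable def cond {N : ℕ} (f : (Fin (N + 1) → ℝ) → ℝ) (x : Fin N → ℝ) (r : ℝ) : ℝ :=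
  f (Fin.snoc (α := fun _ => ℝ) x r) / marg f x

/-- a coupling `π` of two densities with the properties of the sequential quantile coupling, the
first `m` coordinates being independent -/
structure Seq {N : ℕ} (m : ℕ) (f f' : (Fin N → ℝ) → ℝ) (D D' : Fin N → (Fin N → ℝ) → ℝ)
    (π : Measure ((Fin N → ℝ) × (Fin N → ℝ))) : Prop where
  prob : IsProbabilityMeasure π
  fst : π.map Prod.fst = lawN f
  snd : π.map Prod.snd = lawN f'
  key : ∀ k : Fin N, m ≤ (k : ℕ) →
    ∫ z, (z.2 k - z.1 k) * (D k z.1 / f z.1 - D' k z.2 / f' z.2) ∂π ≤ 0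
  zero : ∀ k j : Fin N, m ≤ (k : ℕ) → j < k →
    ∫ z, (z.2 j - z.1 j) * (D k z.1 / f z.1 - D' k z.2 / f' z.2) ∂π = 0
  indep : ∀ U W : (Fin N → ℝ) → ℝ, Measurable U → Measurable W → (∃ K, ∀ x, |U x| ≤ K) →
    (∃ K, ∀ x, |W x| ≤ K) → (∀ x y : Fin N → ℝ, (∀ i : Fin N, (i : ℕ) < m → x i = y i) → U x = U y) →
    ∫ z, U z.1 * W z.2 ∂π = (∫ x, U x ∂lawN f) * ∫ x, W x ∂lawN f'

end QG
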