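import Mathlib
import Pool.Agent.Lib_helper69.QG.Defs

/-!
# Project QG (MP_5fc650_pr). Definitions, part 2: fields on a network of cells.
-/

set_option autoImplicit false

namespace QG

open MeasureTheory

section
variable {A B : Type} [Fintype A] [DecidableEq A] [Fintype B]

/-- the heights at the corners of the cell `v` -/
def loc (c : B → Fin 4 → A) (a : A → ℝ) (v : B) : Fin 4 → ℝ := fun i => a (c v i)

/-- the energy of `h` in the cells of `S` -/
def EnOn (c : B → Fin 4 → A) (S : Finset B) (h : A → ℝ) : ℝ := ∑ v ∈ S, q (loc c h v)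

/-- the energy of `h` -/
def En (c : B → Fin 4 → A) (h : A → ℝ) : ℝ := ∑ v, q (loc c h v)

/-- the pairing -/
def dot (l a : A → ℝ) : ℝ := ∑ y, l y * a y

/-- Lebesgue measure on the fields that vanish at `p` -/
noncomputable def bs (p : A) : Measure (A → ℝ) :=
  Measure.pi fun y => if y = p then Measure.dirac 0 else volume

/-- the weight of a field with tilt `l` -/
noncomputable def wt (w : (Fin 4 → ℝ) → ℝ) (c : B → Fin 4 → A) (l a : A → ℝ) : ℝ :=
  (∏ v, w (loc c a v)) * Real.exp (dot l a)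

/-- the normalising constant -/
noncomputable def Zt (w : (Fin 4 → ℝ) → ℝ) (c : B → Fin 4 → A) (p : A) (l : A → ℝ) : ℝ :=
  ∫ a, wt w c l a ∂bs p

/-- the law of the field with tilt `l` -/
noncomputable def mu (w : (Fin 4 → ℝ) → ℝ) (c : B → Fin 4 → A) (p : A) (l : A → ℝ) :
    Measure (A → ℝ) :=
  (bs p).withDensity fun a => ENNReal.ofReal (wt w c l a / Zt w c p l)

/-- the total force at the site `y` -/
def Fo (G : Fin 4 → (Fin 4 → ℝ) → ℝ) (c : B → Fin 4 → A) (a : A → ℝ) (y : A) : ℝ :=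
  ∑ v, ∑ i, if c v i = y then G i (loc c a v) else 0

/-- a connected network: the corners of a cell are different, and the energy controls fields that
vanish at `p` -/
structure Net (c : B → Fin 4 → A) (p : A) (R : ℝ) : Prop where
  inj : ∀ v, Function.Injective (c v)
  poin : ∀ h : A → ℝ, h p = 0 → ∑ y, h y ^ 2 ≤ R * En c h

/-- the field with heights `x` at the sites different from `p`, which are enumerated by `e` -/
noncomputable def up {N : ℕ} {p : A} (e : Fin N ≃ {y : A // y ≠ p}) (x : Fin N → ℝ) : A → ℝ :=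
  fun y => if hy : y = p then 0 else x (e.symm ⟨y, hy⟩)

/-- a coupling of the field without tilt and the field with tilt `l`, sequential in decreasing
order of the level `lev`; the sites of level `≥ m` are independent -/
structure FSeq (w : (Fin 4 → ℝ) → ℝ) (G : Fin 4 → (Fin 4 → ℝ) → ℝ) (c : B → Fin 4 → A) (p : A)
    (l : A → ℝ) (lev : A → ℕ) (m : ℕ) (π : Measure ((A → ℝ) × (A → ℝ))) : Prop where
  prob : IsProbabilityMeasure π
  fst : π.map Prod.fst = mu w c p 0
  snd : π.map Prod.snd = mu w c p l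
  key : ∀ y, y ≠ p → lev y < m →
    ∫ z, (z.2 y - z.1 y) * (Fo G c z.2 y - Fo G c z.1 y - l y) ∂π ≤ 0
  zero : ∀ y x, y ≠ p → lev y < m → lev y < lev x →
    ∫ z, (z.2 x - z.1 x) * (Fo G c z.2 y - Fo G c z.1 y - l y) ∂π = 0
  indep : ∀ U W : (A → ℝ) → ℝ, Measurable U → Measurable W → (∃ K, ∀ a, |U a| ≤ K) →
    (∃ K, ∀ a, |W a| ≤ K) → (∀ a b : A → ℝ, (∀ y, m ≤ lev y → a y = b y) → U a = U b) →
    ∫ z, U z.1 * W z.2 ∂π = (∫ a, U a ∂mu w c p 0) * ∫ a, W a ∂mu w c p l

/-- a coupling of the field without tilt and the field with tilt `l` -/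
structure Cpl (w : (Fin 4 → ℝ) → ℝ) (c : B → Fin 4 → A) (p : A) (l : A → ℝ)
    (π : Measure ((A → ℝ) × (A → ℝ))) : Prop where
  prob : IsProbabilityMeasure π
  fst : π.map Prod.fst = mu w c p 0
  snd : π.map Prod.snd = mu w c p l

/-- the cells all of whose corners have level at most `2 ^ k` -/
def clv (c : B → Fin 4 → A) (lev : A → ℕ) (k : ℕ) : Finset B :=
  Finset.univ.filter fun v => ∀ i, lev (c v i) ≤ 2 ^ k

/-- the cells at scale `k + 1` that are not at scale `k` -/
def shl (c : B → Fin 4 → A) (lev : A → ℕ) (k : ℕ) : Finset B :=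
  Finset.univ.filter fun v => (∀ i, lev (c v i) ≤ 2 ^ (k + 1)) ∧ ¬ ∀ i, lev (c v i) ≤ 2 ^ k

/-- the sites with level in `(2 ^ k, 2 ^ (k + 1)]` -/
def ann (lev : A → ℕ) (k : ℕ) : Finset A :=
  Finset.univ.filter fun y => 2 ^ k < lev y ∧ lev y ≤ 2 ^ (k + 1)

/-- the average over the annulus -/
noncomputable def kap (lev : A → ℕ) (k : ℕ) (h : A → ℝ) : ℝ :=
  (∑ y ∈ ann lev k, h y) / (ann lev k).card

/-- local geometry around a point, with levels and Poincare inequalities up to scale `2 ^ K`;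
`N` is of the order of the logarithm of the diameter -/
structure Local (c : B → Fin 4 → A) (p : A) (lev : A → ℕ) (K : ℕ) (N Cg : ℝ) : Prop where
  one_le : 1 ≤ Cg
  adj : ∀ v i j, lev (c v i) ≤ lev (c v j) + 1
  far : 2 ^ K < lev p
  nonem : ∀ k, k < K → (ann lev k).Nonempty
  poin : ∀ k, k < K → ∀ h : A → ℝ,
    ∑ y ∈ Finset.univ.filter (fun y => lev y ≤ 2 ^ (k + 1)), (h y - kap lev k h) ^ 2 ≤
      Cg * 4 ^ k * EnOn c (clv c lev (k + 1)) h
  count : ∀ k, k ≤ K → ((clv c lev k).card : ℝ) ≤ Cg * 4 ^ k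
  mult : ∀ y, (Finset.univ.filter fun v => ∃ i, c v i = y).card ≤ 4
  diam : ∀ (x y : A) (h : A → ℝ), (h x - h y) ^ 2 ≤ Cg * N * En c h
  big : (4 : ℝ) ^ K ≤ Real.exp (Cg * N)

/-- the expected dissipation in the cells of level at most `2 ^ k` -/
noncomputable def Dk (G : Fin 4 → (Fin 4 → ℝ) → ℝ) (c : B → Fin 4 → A) (lev : A → ℕ)
    (π : Measure ((A → ℝ) × (A → ℝ))) (k : ℕ) : ℝ :=
  ∫ z, ∑ v ∈ clv c lev k, DD G (loc c z.1 v) (loc c z.2 v) ∂π

end

end QG
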