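import Mathlib
import Pool.Agent.Lib_helper69.QG.Defs
import Pool.Agent.Lib_helper69.QG.Field

/-!
# Project QG (MP_5fc650_pr). Definitions, part 3: the torus.
-/

set_option autoImplicit false

namespace QG

/-- the energy of a function on `ℤ × ℤ` in the unit square with lower corner `(i, j)` -/
def sq4 (f : ℤ → ℤ → ℝ) (i j : ℤ) : ℝ := q ![f i j, f (i + 1) (j + 1), f (i + 1) j, f i (j + 1)]

/-- the average over the square `[2 * 2 ^ k, 3 * 2 ^ k) × [0, 2 ^ k)` -/
noncomputable def Phi (f : ℤ → ℤ → ℝ) (k : ℕ) : ℝ :=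
  (∑ i ∈ Finset.Ico (2 * 2 ^ k : ℤ) (3 * 2 ^ k), ∑ j ∈ Finset.Ico (0 : ℤ) (2 ^ k), f i j) / 4 ^ k

section
variable (n : ℕ)

/-- the torus -/
abbrev Tor : Type := ZMod (2 * n) × ZMod (2 * n)

/-- the parity of a site -/
def par (y : Tor n) : ZMod 2 := ZMod.castHom (Dvd.intro n rfl) (ZMod 2) (y.1 + y.2)

/-- even sites -/
abbrev Ev : Type := {y : Tor n // par n y = 0}

/-- odd sites -/
abbrev Od : Type := {y : Tor n // par n y = 1}

/-- the four directions -/
def dir (i : Fin 4) : Tor n := ![(-1, 0), (1, 0), (0, 1), (0, -1)] i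

theorem par_add (x y : Tor n) : par n (x + y) = par n x + par n y := by
  simp only [par, Prod.fst_add, Prod.snd_add, ← map_add]
  congr 1
  ring

theorem par_dir (i : Fin 4) : par n (dir n i) = 1 := by
  fin_cases i <;> simp [par, dir]

theorem par_int (a b : ℤ) : par n ((a : ZMod (2 * n)), (b : ZMod (2 * n))) = ((a + b : ℤ) : ZMod 2) := by
  simp [par]

/-- the corners of a cell -/
def cn (v : Od n) (i : Fin 4) : Ev n := ⟨v.1 + dir n i, by
  rw [par_add, v.2, par_dir]; decide⟩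

/-- the chart around the even site `z` -/
def ch (z : Ev n) (i j : ℤ) : Ev n :=
  ⟨z.1 + (((i + j : ℤ) : ZMod (2 * n)), ((i - j : ℤ) : ZMod (2 * n))), by
    rw [par_add, z.2, par_int, zero_add]
    have : i + j + (i - j) = 2 * i := by ring
    rw [this]
    push_cast
    have h2 : (2 : ZMod 2) = 0 := by decide
    rw [h2, zero_mul]⟩

/-- the cells in the chart -/
def cc (z : Ev n) (i j : ℤ) : Od n :=
  ⟨z.1 + (((i + j + 1 : ℤ) : ZMod (2 * n)), ((i - j : ℤ) : ZMod (2 * n))), by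
    rw [par_add, z.2, par_int, zero_add]
    have : i + j + 1 + (i - j) = 2 * i + 1 := by ring
    rw [this]
    push_cast
    have h2 : (2 : ZMod 2) = 0 := by decide
    rw [h2, zero_mul, zero_add]⟩

/-- the level of `y` around `z`: half of the graph distance -/
def lv (z y : Ev n) : ℕ :=
  ((y.1.1 - z.1.1).valMinAbs.natAbs + (y.1.2 - z.1.2).valMinAbs.natAbs) / 2

end

/-- the site `(a, a)` -/
def dg (n a : ℕ) : Ev n := ⟨((a : ZMod (2 * n)), (a : ZMod (2 * n))), by
  simp only [par, map_add, map_natCast]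
  exact CharTwo.add_self_eq_zero _⟩

section
variable (n : ℕ) [NeZero n]

/-- the functional `Phi` as a vector -/
noncomputable def phi (z : Ev n) (k : ℕ) (y : Ev n) : ℝ :=
  Phi (fun i j => if ch n z i j = y then 1 else 0) k

end

section
variable {A B : Type} [Fintype A] [DecidableEq A] [Fintype B]

/-- two centres `z 0`, `z 1` with local geometry up to scale `2 ^ K` and the averages `ph s k` at
scale `2 ^ k` around `z s` -/
structure Geo (c : B → Fin 4 → A) (p : A) (R : ℝ) (K : ℕ) (Cg : ℝ) (z : Fin 2 → A)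
    (lev : Fin 2 → A → ℕ) (ph : Fin 2 → ℕ → A → ℝ) : Prop where
  net : Net c p R
  locl : ∀ s, Local c p (lev s) K K Cg
  zero : ∀ s, lev s (z s) = 0
  sep : ∀ s s' y, s ≠ s' → lev s y ≤ 2 ^ K → 2 ^ K < lev s' y
  near : ∀ s (h : A → ℝ), (h (z s) - dot (ph s 0) h) ^ 2 ≤ Cg * En c h
  step : ∀ s k k', k ≤ k' → k' + 2 ≤ K → ∀ h : A → ℝ, (dot (ph s k) h - dot (ph s k') h) ^ 2 ≤
    Cg * ((k' : ℝ) - k) * EnOn c (clv c (lev s) (k' + 2)) h
  last : ∀ h : A → ℝ, (dot (ph 0 (K - 2)) h - dot (ph 1 (K - 2)) h) ^ 2 ≤ Cg * En c h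
  supp : ∀ s k y, k + 2 ≤ K → ph s k y ≠ 0 → 2 ^ (k + 1) ≤ lev s y ∧ lev s y ≤ 2 ^ (k + 2)

end

end QG
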