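import Mathlib

/-!
# Project QG (MP_5fc650_pr). The random surface of the problem.
-/

set_option autoImplicit false

namespace QG

open MeasureTheory

/-- the energy `∑ (φ v - φ w) ^ 4`, the sum over the edges of the torus -/
noncomputable def enT (n : ℕ) [NeZero n] (φ : ZMod (2 * n) × ZMod (2 * n) → ℝ) : ℝ :=
  ∑ v, ((φ (v + (1, 0)) - φ v) ^ 4 + (φ (v + (0, 1)) - φ v) ^ 4)

/-- `δ₀(dφ₀) ∏_{v ≠ 0} dφ_v` -/
noncomputable def bsT (n : ℕ) [NeZero n] : Measure (ZMod (2 * n) × ZMod (2 * n) → ℝ) :=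
  Measure.pi fun v => if v = 0 then Measure.dirac 0 else volume

/-- the random surface measure pinned at `0` -/
noncomputable def muT (n : ℕ) [NeZero n] : Measure (ZMod (2 * n) × ZMod (2 * n) → ℝ) :=
  (∫⁻ φ, ENNReal.ofReal (Real.exp (-enT n φ)) ∂bsT n)⁻¹ •
    (bsT n).withDensity fun φ => ENNReal.ofReal (Real.exp (-enT n φ))

/-- the height at the vertex `(n, n)` -/
def far (n : ℕ) (φ : ZMod (2 * n) × ZMod (2 * n) → ℝ) : ℝ := φ ((n : ZMod (2 * n)), (n : ZMod (2 * n)))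

end QG
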