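import Mathlib
import Pool.Agent.Lib_helper69.QG.TorusDefs
import Pool.Agent.Lib_helper69.QG.W.cz
import Pool.Agent.Lib_helper69.QG.W.fe
import Pool.Agent.Lib_helper69.QG.W.pz
import Pool.Agent.Lib_helper69.QG.W.tg
import Pool.Agent.Lib_helper69.QG.W.th
import Pool.Agent.Lib_helper69.QG.W.rc

/-!
# Project QG (MP_5fc650_pr): assembly.
-/

set_option autoImplicit false

namespace QG

open MeasureTheory Filter Topology

/-- the scale of a torus -/
theorem scale_exists (n : ℕ) (hn : 256 ≤ n) : ∃ K : ℕ, 3 ≤ K ∧ 2 ^ (K + 5) ≤ n ∧ n < 2 ^ (K + 6) := by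
  have h8 : 8 ≤ Nat.log 2 n := by
    have h := Nat.log_mono_right (b := 2) hn
    have h2 : Nat.log 2 256 = 8 := by
      rw [show (256 : ℕ) = 2 ^ 8 by norm_num]
      exact Nat.log_pow (by norm_num) 8
    omega
  refine ⟨Nat.log 2 n - 5, by omega, ?_, ?_⟩
  · rw [show Nat.log 2 n - 5 + 5 = Nat.log 2 n by omega]
    exact Nat.pow_log_le_self 2 (by omega)
  · rw [show Nat.log 2 n - 5 + 6 = Nat.log 2 n + 1 by omega]
    exact Nat.lt_pow_succ_log_self (by norm_num) n

theorem diff_meas {A : Type} [Fintype A] (x y : A) : Measurable fun a : A → ℝ => a x - a y := by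
  fun_prop

theorem far_meas (n : ℕ) [NeZero n] : Measurable (far n) := by
  unfold far
  fun_prop

/-- integrals of functions of the height -/
theorem far_integral {E : Type} [NormedAddCommGroup E] [NormedSpace ℝ E] (n : ℕ) [NeZero n]
    (hn : 256 ≤ n) {F : ℝ → E} (hF : StronglyMeasurable F) :
    ∫ φ, F (far n φ) ∂muT n =
      ∫ a, F (a (dg n n) - a (dg n 0)) ∂mu w4 (cn n) (dg n (n / 2)) 0 := by
  obtain ⟨_, h⟩ := far_law n hn
  rw [← integral_map (far_meas n).aemeasurable hF.aestronglyMeasurable, h,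
    integral_map (diff_meas _ _).aemeasurable hF.aestronglyMeasurable]

/-- the variance has the order of the logarithm -/
theorem far_var : ∃ c C : ℝ, 0 < c ∧ 0 < C ∧ ∀ (n : ℕ) [NeZero n], 256 ≤ n →
    c * Real.log n ≤ ∫ φ, far n φ ^ 2 ∂muT n ∧ ∫ φ, far n φ ^ 2 ∂muT n ≤ C * Real.log n := by
  obtain ⟨C0, hw⟩ := cell4
  obtain ⟨Cg, hCg, hG⟩ := geo_torus
  obtain ⟨C', κ, hC', hκ, hM⟩ := height_moments hw hCg
  have hl2 : 0 < Real.log 2 := Real.log_pos (by norm_num)
  refine ⟨κ / (3 * Real.log 2), C' / Real.log 2, by positivity, by positivity, ?_⟩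
  intro n _ hn
  obtain ⟨K, hK, h1, h2⟩ := scale_exists n hn
  obtain ⟨R, hR⟩ := hG n K hK h1 h2
  obtain ⟨m1, m2, _⟩ := hM hR (by omega)
  have e : ∫ φ, far n φ ^ 2 ∂muT n =
      ∫ a, (a (dg n n) - a (dg n 0)) ^ 2 ∂mu w4 (cn n) (dg n (n / 2)) 0 :=
    far_integral n hn (F := fun x => x ^ 2) (by fun_prop : Continuous fun x : ℝ => x ^ 2).stronglyMeasurable
  simp only [Matrix.cons_val_zero, Matrix.cons_val_one] at m1 m2
  rw [e]
  have hn0 : (0 : ℝ) < n := by exact_mod_cast (by omega : 0 < n)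
  have l1 : ((K : ℝ) + 5) * Real.log 2 ≤ Real.log n := by
    have : ((2 : ℝ) ^ (K + 5)) ≤ n := by exact_mod_cast h1
    have := Real.log_le_log (by positivity) this
    rw [Real.log_pow] at this
    push_cast at this
    exact this
  have l2 : Real.log n ≤ ((K : ℝ) + 6) * Real.log 2 := by
    have : (n : ℝ) ≤ (2 : ℝ) ^ (K + 6) := by exact_mod_cast h2.le
    have := Real.log_le_log hn0 this
    rw [Real.log_pow] at this
    push_cast at this
    exact this
  have hK3 : (3 : ℝ) ≤ K := by exact_mod_cast hK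
  constructor
  · refine le_trans ?_ m1
    rw [div_mul_eq_mul_div, div_le_iff₀ (by positivity)]
    have : Real.log n ≤ 3 * K * Real.log 2 := by nlinarith
    nlinarith
  · refine m2.trans ?_
    rw [div_mul_eq_mul_div, le_div_iff₀ hl2]
    nlinarith

/-- convergence of the characteristic function -/
theorem far_char (τ : ℝ) {δ : ℝ} (hδ : 0 < δ) : ∃ n0 : ℕ, ∀ (n : ℕ) [NeZero n], n0 ≤ n → 256 ≤ n →
    ‖∫ φ, Complex.exp ((τ / Real.sqrt (∫ φ, far n φ ^ 2 ∂muT n) * far n φ : ℝ) * Complex.I) ∂muT n -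
      (Real.exp (-(τ ^ 2 / 2)) : ℝ)‖ ≤ δ := by
  obtain ⟨C0, hw⟩ := cell4
  obtain ⟨Cg, hCg, hG⟩ := geo_torus
  obtain ⟨K0, hK0⟩ := net_clt hw hCg τ hδ
  refine ⟨2 ^ (K0 + 6), ?_⟩
  intro n _ hn0 hn
  obtain ⟨K, hK, h1, h2⟩ := scale_exists n hn
  obtain ⟨R, hR⟩ := hG n K hK h1 h2
  have hKK : K0 ≤ K := by
    have : 2 ^ (K0 + 6) < 2 ^ (K + 6) := lt_of_le_of_lt hn0 h2
    have := (Nat.pow_lt_pow_iff_right (by norm_num : 1 < 2)).1 this
    omega
  have := hK0 hR hKK
  simp only [Matrix.cons_val_zero, Matrix.cons_val_one] at this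
  have e : ∫ φ, far n φ ^ 2 ∂muT n =
      ∫ a, (a (dg n n) - a (dg n 0)) ^ 2 ∂mu w4 (cn n) (dg n (n / 2)) 0 :=
    far_integral n hn (F := fun x => x ^ 2) (by fun_prop : Continuous fun x : ℝ => x ^ 2).stronglyMeasurable
  rw [e]
  rw [far_integral n hn (F := fun x : ℝ => Complex.exp ((τ / Real.sqrt
    (∫ a, (a (dg n n) - a (dg n 0)) ^ 2 ∂mu w4 (cn n) (dg n (n / 2)) 0) * x : ℝ) * Complex.I))
    (by fun_prop : Continuous _).stronglyMeasurable]
  exact this

/-- the normalisation -/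
noncomputable def sdT (n : ℕ) : ℝ := if h : 256 ≤ n then
  haveI : NeZero n := ⟨by omega⟩
  Real.sqrt (∫ φ, far n φ ^ 2 ∂muT n) else 1

theorem sdT_eq (n : ℕ) [NeZero n] (hn : 256 ≤ n) : sdT n = Real.sqrt (∫ φ, far n φ ^ 2 ∂muT n) := by
  rw [sdT, dif_pos hn]

theorem sdT_pos (n : ℕ) : 0 < sdT n := by
  unfold sdT
  split_ifs with h
  · haveI : NeZero n := ⟨by omega⟩
    obtain ⟨c, C, hc, hC, hv⟩ := far_var
    have := (hv n h).1
    refine Real.sqrt_pos.2 (lt_of_lt_of_le ?_ this)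
    refine mul_pos hc (Real.log_pos ?_)
    exact_mod_cast (by omega : 1 < n)
  · norm_num

/-- convergence in distribution -/
theorem far_clt (f : BoundedContinuousFunction ℝ ℝ) :
    Tendsto (fun n : ℕ => ∫ φ, f (far (n + 1) φ / sdT (n + 1)) ∂muT (n + 1)) atTop
      (𝓝 (∫ x, f x ∂ProbabilityTheory.gaussianReal 0 1)) := by
  classical
  have hprob : ∀ n : ℕ, 256 ≤ n + 1 → IsProbabilityMeasure (muT (n + 1)) := fun n hn =>
    (far_law (n + 1) hn).1
  have hm : ∀ n : ℕ, Measurable fun φ => far (n + 1) φ / sdT (n + 1) := fun n =>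
    (far_meas (n + 1)).div_const _
  let ν : ℕ → ProbabilityMeasure ℝ := fun n => if h : 256 ≤ n + 1 then
    ⟨(muT (n + 1)).map fun φ => far (n + 1) φ / sdT (n + 1), by
      haveI := hprob n h
      exact Measure.isProbabilityMeasure_map (hm n).aemeasurable⟩ else
    ⟨Measure.dirac 0, inferInstance⟩
  let g : ProbabilityMeasure ℝ := ⟨ProbabilityTheory.gaussianReal 0 1, inferInstance⟩
  have hν : ∀ n : ℕ, 256 ≤ n + 1 → (ν n : Measure ℝ) =
      (muT (n + 1)).map fun φ => far (n + 1) φ / sdT (n + 1) := by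
    intro n h
    simp only [ν, dif_pos h]
    rfl
  have key : Tendsto ν atTop (𝓝 g) := by
    rw [ProbabilityMeasure.tendsto_iff_tendsto_charFun]
    intro t
    have hg : charFun (g : Measure ℝ) t = ((Real.exp (-(t ^ 2 / 2)) : ℝ) : ℂ) := by
      change charFun (ProbabilityTheory.gaussianReal 0 1) t = _
      rw [ProbabilityTheory.charFun_gaussianReal]
      push_cast
      congr 1
      simp
    rw [hg, Metric.tendsto_atTop]
    intro ε hε
    obtain ⟨n0, hn0⟩ := far_char t (half_pos hε)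
    refine ⟨max n0 256, fun n hn => ?_⟩
    have h1 : n0 ≤ n + 1 := by have := le_max_left n0 256; omega
    have h2 : 256 ≤ n + 1 := by have := le_max_right n0 256; omega
    have h3 := hn0 (n + 1) h1 h2
    rw [dist_eq_norm]
    refine lt_of_le_of_lt ?_ (half_lt_self hε)
    refine le_trans (le_of_eq ?_) h3
    congr 2
    rw [charFun_apply_real, hν n h2, integral_map (hm n).aemeasurable
      (by fun_prop : Continuous fun x : ℝ => Complex.exp (t * x * Complex.I)).aestronglyMeasurable,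
      sdT_eq (n + 1) h2]
    refine integral_congr_ae (Eventually.of_forall fun φ => ?_)
    simp only
    congr 2
    push_cast
    ring
  have h4 := (ProbabilityMeasure.tendsto_iff_forall_integral_tendsto.1 key) f
  refine Tendsto.congr' ?_ h4
  filter_upwards [eventually_ge_atTop 256] with n hn
  have h2 : 256 ≤ n + 1 := by omega
  rw [hν n h2, integral_map (hm n).aemeasurable f.continuous.aestronglyMeasurable]

end QG
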